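import Pool.Agent.Helper43.RP.Goals
import Pool.Agent.Helper88.FE.SIEG
import Mathlib.NumberTheory.SiegelsLemma

/-!
# Project RP (MP_f5847d_nt), packet SIEG: Siegel's lemma for an arbitrary set of monomials
-/

set_option autoImplicit false

open Finset Pool.Agent.Helper22.FSU Pool.Agent.Helper50.FE Pool.Agent.Helper43.RP
open Pool.Agent.Helper88.FE (prod_choose_eq_zero card_box_le prod_choose_le)

namespace Pool.Agent.Helper4.RP.SIEG

attribute [local instance] Matrix.normedAddCommGroup

/-- packet SIEG -/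
theorem t : SIEG2 := by
  classical
  intro m r A B β T hAbox hAne hB hcard
  have hApos : 0 < A.card := Finset.card_pos.2 hAne
  rcases Nat.eq_zero_or_pos B.card with hB0 | hBpos
  · obtain ⟨a0, ha0⟩ := hAne
    refine ⟨fun a => if a = a0 then 1 else 0, ⟨a0, by simp⟩, ?_, ?_, ?_⟩
    · intro a ha
      have h1 : a = a0 := by
        by_contra hne
        exact ha (if_neg hne)
      rw [h1]
      exact ha0
    · intro a
      have h1 : (1 : ℤ) ≤ 4 ^ (∑ i, r i) := one_le_pow₀ (by norm_num)
      show |(if a = a0 then (1 : ℤ) else 0)| ≤ _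
      split_ifs
      · simpa using h1
      · simp
    · intro b hb
      exfalso
      have h2 := hB b hb
      rw [Finset.card_eq_zero.1 hB0] at h2
      exact absurd h2 (Finset.notMem_empty _)
  · have hlt : B.card < A.card := by omega
    let MM : Matrix B A ℤ := fun b a => ∏ i, (((a.1 i).choose (b.1 i) : ℕ) : ℤ)
    obtain ⟨t, ht0, ht1, ht2⟩ := Int.Matrix.exists_ne_zero_int_vec_norm_le MM
      (by rw [Fintype.card_coe, Fintype.card_coe]; exact hlt)
      (by rw [Fintype.card_coe]; exact hBpos)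
    have hQ : (1 : ℝ) ≤ 2 ^ (∑ i, r i) := one_le_pow₀ (by norm_num)
    have hMM : ‖MM‖ ≤ 2 ^ (∑ i, r i) := by
      rw [Matrix.norm_le_iff (by positivity)]
      intro b a
      have h1 := prod_choose_le r a.1 b.1 (hAbox a.2)
      have h2 : ‖MM b a‖ = ((∏ i, (a.1 i).choose (b.1 i) : ℕ) : ℝ) := by
        show ‖∏ i, (((a.1 i).choose (b.1 i) : ℕ) : ℤ)‖ = _
        rw [← Nat.cast_prod, Int.norm_natCast]
      rw [h2]
      exact_mod_cast h1
    have hnorm : ‖t‖ ≤ 4 ^ (∑ i, r i) := by
      rw [Fintype.card_coe, Fintype.card_coe] at ht2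
      have h1 : (1 : ℝ) ≤ (A.card : ℝ) * max 1 ‖MM‖ := by
        have h3 : (1 : ℝ) ≤ (A.card : ℝ) := by exact_mod_cast hApos
        calc (1 : ℝ) = 1 * 1 := by ring
          _ ≤ _ := mul_le_mul h3 (le_max_left _ _) zero_le_one (by positivity)
      have h2 : ((B.card : ℝ) / ((A.card : ℝ) - B.card)) ≤ 1 := by
        have h4 : (0 : ℝ) < (A.card : ℝ) - B.card := by
          have : (B.card : ℝ) < A.card := by exact_mod_cast hlt
          linarith
        rw [div_le_one h4]
        have h5 : (2 * B.card : ℝ) ≤ A.card := by exact_mod_cast hcard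
        linarith
      have h3 := Real.rpow_le_rpow_of_exponent_le h1 h2
      rw [Real.rpow_one] at h3
      refine ht2.trans (h3.trans ?_)
      have h6 : (A.card : ℝ) ≤ 2 ^ (∑ i, r i) := by
        have : A.card ≤ 2 ^ (∑ i, r i) := (Finset.card_le_card hAbox).trans (card_box_le r)
        exact_mod_cast this
      calc (A.card : ℝ) * max 1 ‖MM‖ ≤ 2 ^ (∑ i, r i) * 2 ^ (∑ i, r i) :=
            mul_le_mul h6 (max_le hQ hMM) (by positivity) (by positivity)
        _ = 4 ^ (∑ i, r i) := by
            rw [← mul_pow]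
            norm_num
    refine ⟨fun a => if ha : a ∈ A then t ⟨a, ha⟩ else 0, ?_, ?_, ?_, ?_⟩
    · obtain ⟨a, ha⟩ := Function.ne_iff.1 ht0
      refine ⟨a.1, ?_⟩
      show (if ha : a.1 ∈ A then t ⟨a.1, ha⟩ else 0) ≠ 0
      rw [dif_pos a.2]
      exact ha
    · intro a ha
      by_contra hne
      exact ha (dif_neg hne)
    · intro a
      show |(if ha : a ∈ A then t ⟨a, ha⟩ else 0)| ≤ _
      split_ifs with ha
      · have h1 := (norm_le_pi_norm t ⟨a, ha⟩).trans hnorm
        rw [Int.norm_eq_abs] at h1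
        exact_mod_cast h1
      · simp
    · intro b hb
      have hbB : b ∈ B := hB b hb
      have h1 := congrFun ht1 ⟨b, hbB⟩
      have h2 : ∑ a ∈ box r, (if ha : a ∈ A then t ⟨a, ha⟩ else 0) *
          ∏ i, (((a i).choose (b i) : ℕ) : ℤ) =
          ∑ a ∈ A, (if ha : a ∈ A then t ⟨a, ha⟩ else 0) *
          ∏ i, (((a i).choose (b i) : ℕ) : ℤ) := by
        symm
        refine Finset.sum_subset hAbox fun a _ ha => ?_
        rw [dif_neg ha, zero_mul]
      show ∑ a ∈ box r, (if ha : a ∈ A then t ⟨a, ha⟩ else 0) *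
          ∏ i, (((a i).choose (b i) : ℕ) : ℤ) = 0
      rw [h2, ← Finset.sum_coe_sort]
      have h3 : (MM.mulVec t) ⟨b, hbB⟩ = ∑ a : A, (if ha : a.1 ∈ A then t ⟨a.1, ha⟩ else 0) *
          ∏ i, (((a.1 i).choose (b i) : ℕ) : ℤ) := by
        rw [Matrix.mulVec, dotProduct]
        refine Finset.sum_congr rfl fun a _ => ?_
        rw [dif_pos a.2, mul_comm]
      rw [← h3]
      exact h1

end Pool.Agent.Helper4.RP.SIEG
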